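import Pool.Agent.Y553.PL.Main
import Pool.Agent.Y813.PL.Def
import Pool.Agent.Y291.PL.HASH
import Pool.Agent.Y87.PL.PRES
import Pool.Agent.Y340.PL.HSEM
import Pool.Agent.Y542.PL.REC
import Pool.Agent.Y810.PL.CARDS
import Pool.Agent.Y195.PL.CARDW
import Pool.Agent.Y592.PL.GOODEX
import Pool.Agent.Y684.PL.Exax
import Pool.Agent.Y74.PL.EXSEM
import Pool.Agent.Y901.PL.EXISO
import Pool.Agent.Y665.PL.Card

/-!
# Addition-invariant first-order logic needs polylogarithmic locality radii

Every query definable in `(+,*)`-invariant first-order logic is Gaifman-local with a radius
`(log n) ^ k`, `n` the number of vertices (Anderson, van Melkebeek, Schweikardt, Segoufin). The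
starting file shows that for `+`-invariant first-order logic no constant radius suffices. Here: no
radius `(log n) ^ c` suffices for all `+`-invariant queries, so that for `+` alone the locality
radii are the same as for `+` and `*`.

Idea. A graph consists of a sparse part `S` (two long paths in the example) and a coding part: an
ordered index set `A`, a value set `B` with at least `|A|` elements, and all functions `A → B`. By a
translation of the numbering every vertex of `S` is mapped to a function, and `2 m + 4` universal
hash functions with values in `B` map the functions in the image injectively to short codes. A hash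
value is computed by accumulation along `A`; the accumulation table is a colour of the functions
(in the example `z + q x` modulo a prime). So a function can code a coordinate of a sequence of `|A|`
vertices of `S`, and `m` nested quantifications express reachability in `(|A| - 1) ^ m` steps.
That `S` is small enough for the hash functions to exist is itself expressed by reachability from
two start vertices, which makes the formula independent of the numbering. The number of vertices of
the example is about `|A| ^ |A|`.
-/

set_option autoImplicit false

namespace Pool.Agent.Results.MP_abe753_lc.PolylogRadius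

open Pool.Agent.Results.MP_abe753_lc.PlusNotLocal Pool.Agent.Y553.PL

/-- For every `c ≥ 1` there is a `+`-invariant first-order formula which defines a unary query that
is not Gaifman-local, even with the radius `(log₂ n) ^ c`: there are arbitrarily large finite
coloured graphs with vertices `a` and `b` whose neighbourhoods of all radii `r ≤ (log₂ n) ^ c` are
isomorphic and which are distinguished by the query. -/
theorem result (c : ℕ) (hc : 1 ≤ c) :
    ∃ φ : (vocab 16).Formula (Fin 1), PlusInvariant φ ∧ ¬ GaifmanLocal φ ∧
      ∀ N : ℕ, ∃ (V : Type) (_ : Finite V) (G : ColouredGraph 16 V) (a b : Fin 1 → V),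
        N ≤ Nat.card V ∧ (∀ r ≤ (Nat.log 2 (Nat.card V)) ^ c, NbhdIso G r a b) ∧
        a ∈ query φ G ∧ b ∉ query φ G :=
  main Pool.Agent.Y813.PL.t_DEF Pool.Agent.Y87.PL.t_PRES Pool.Agent.Y542.PL.t_REC
    Pool.Agent.Y810.PL.t_CARDS
    (Pool.Agent.Y592.PL.t_GOODEX Pool.Agent.Y291.PL.HASH.t_HASH Pool.Agent.Y340.PL.t_HSEM
      Pool.Agent.Y195.PL.t_CARDW)
    Pool.Agent.Y684.PL.t_EXAX Pool.Agent.Y74.PL.t_EXSEM Pool.Agent.Y901.PL.t_EXISO
    Pool.Agent.Y665.PL.t_EXCARD Pool.Agent.Y665.PL.t_ARITH c hc

end Pool.Agent.Results.MP_abe753_lc.PolylogRadius
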